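import Pool.Agent.H31.BOU.Targets3

/-!
# Row FJ of `bou_modules`
-/

set_option autoImplicit false

namespace Pool.Agent.H91.BOU

open Finset Pool.Agent.H31.BOU

/-- Sparse jumps need many exceptional scales. -/
theorem bad_of_jmp {K L J : ℕ} {lam : ℝ} {A : ℕ → ℂ}
    (h : Jmp (L + 2 * K + 1) lam (2 ^ J) A) :
    ¬ ∃ E : Finset ℕ, E.card ≤ K ∧ ∀ N N' : ℕ, 2 ^ L ≤ N → N ≤ N' → N' ≤ 2 ^ J →
      (∀ j, Nat.log 2 N ≤ j + L → j + L ≤ Nat.log 2 N' → j ∉ E) →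
      ‖A N - A N'‖ ≤ lam := by
  rintro ⟨E, hE, hA⟩
  obtain ⟨n, hn0, hn1, hn2, hn3⟩ := h
  -- growth
  have hpow : ∀ i, i ≤ L + 2 * K + 1 → 2 ^ i ≤ n i := by
    intro i
    induction i with
    | zero => intro _; simpa using hn0
    | succ i ih =>
      intro hi
      have h1 := ih (by omega)
      have h2 := hn1 i (by omega)
      rw [pow_succ]; omega
  have hmono : ∀ d i, i + d ≤ L + 2 * K + 1 → n i ≤ n (i + d) := by
    intro d
    induction d with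
    | zero => intro i _; exact le_rfl
    | succ d ih =>
      intro i hi
      have h1 := ih i (by omega)
      have h2 := hn1 (i + d) (by omega)
      have h3 : n (i + (d + 1)) = n (i + d + 1) := rfl
      rw [h3]; omega
  have hlog : ∀ i, i < L + 2 * K + 1 → Nat.log 2 (n i) + 1 ≤ Nat.log 2 (n (i + 1)) := by
    intro i hi
    have h0 : n i ≠ 0 := by
      have := hpow i hi.le
      have h5 : 0 < 2 ^ i := by positivity
      omega
    have h1 : Nat.log 2 (n i * 2) = Nat.log 2 (n i) + 1 := Nat.log_mul_base (by norm_num) h0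
    rw [← h1]
    exact Nat.log_mono_right (by have := hn1 i hi; omega)
  have hex : ∀ i, L ≤ i → i < L + 2 * K + 1 → ∃ j ∈ E, Nat.log 2 (n i) ≤ j + L ∧
      j + L ≤ Nat.log 2 (n (i + 1)) := by
    intro i h1 h2
    by_contra hcon
    push Not at hcon
    have h3 := hA (n i) (n (i + 1)) ((Nat.pow_le_pow_right (by norm_num) h1).trans (hpow i h2.le))
      (by have := hn1 i h2; omega)
      ((hmono (L + 2 * K + 1 - (i + 1)) (i + 1) (by omega)).trans (by
        have : i + 1 + (L + 2 * K + 1 - (i + 1)) = L + 2 * K + 1 := by omega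
        rw [this]; exact hn2))
      (fun j hj1 hj2 hjE => absurd hj2 (not_le_of_gt (hcon j hjE hj1)))
    exact absurd h3 (not_le_of_gt (hn3 i h2))
  choose! g hgE hg1 hg2 using hex
  have hinj : ∀ s t : ℕ, s ≤ K → t ≤ K → s < t → g (L + 2 * s) < g (L + 2 * t) := by
    intro s t hs ht hst
    have h1 := hg2 (L + 2 * s) (by omega) (by omega)
    have h2 := hg1 (L + 2 * t) (by omega) (by omega)
    have h3 : Nat.log 2 (n (L + 2 * s + 1)) + 1 ≤ Nat.log 2 (n (L + 2 * t)) := by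
      refine (hlog (L + 2 * s + 1) (by omega)).trans (Nat.log_mono_right ?_)
      have h4 := hmono (L + 2 * t - (L + 2 * s + 1 + 1)) (L + 2 * s + 1 + 1) (by omega)
      have h5 : L + 2 * s + 1 + 1 + (L + 2 * t - (L + 2 * s + 1 + 1)) = L + 2 * t := by omega
      rwa [h5] at h4
    omega
  have hcard : (range (K + 1)).card ≤ E.card := by
    refine card_le_card_of_injOn (fun s => g (L + 2 * s)) (fun s hs => ?_) (fun s hs t ht hst => ?_)
    · have hs' : s < K + 1 := mem_range.1 hs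
      exact hgE (L + 2 * s) (by omega) (by omega)
    · have hs' : s < K + 1 := mem_range.1 hs
      have ht' : t < K + 1 := mem_range.1 ht
      rcases lt_trichotomy s t with h | h | h
      · exact absurd hst (hinj s t (by omega) (by omega) h).ne
      · exact h
      · exact absurd hst (hinj t s (by omega) (by omega) h).ne'
  rw [card_range] at hcard
  omega

open Classical in
/-- Every `k` in the middle half has many representations. -/
theorem many_pairs (J : ℕ) (hJ : 1 ≤ J) (S : Finset ℤ) (hS : S ⊆ Ico ((2 : ℤ) ^ (J - 1))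
    (3 * 2 ^ (J - 1))) (B : Finset (ℕ × ℕ))
    (hB : ∀ a ∈ range (2 ^ J), ∀ b ∈ range (2 ^ J), ((a : ℤ) + b) ∈ S → (a, b) ∈ B) :
    S.card * 2 ^ (J - 1) ≤ B.card := by
  have h2J : 2 ^ J = 2 * 2 ^ (J - 1) := by
    obtain ⟨m, rfl⟩ : ∃ m, J = m + 1 := ⟨J - 1, by omega⟩
    rw [pow_succ, Nat.add_sub_cancel, mul_comm]
  have e1 : (S ×ˢ range (2 ^ (J - 1))).card = S.card * 2 ^ (J - 1) := by
    rw [card_product, card_range]
  rw [← e1]
  set M : ℕ := 2 ^ (J - 1) with hM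
  have hMz : ((2 : ℤ) ^ (J - 1)) = (M : ℤ) := by rw [hM]; push_cast; rfl
  -- the map
  set sh : ℤ → ℕ := fun k => (k + 1 - 2 * M).toNat with hsh
  have hkey : ∀ k ∈ S, ∀ s < M, (sh k + s : ℕ) < 2 ^ J ∧ ((sh k + s : ℕ) : ℤ) ≤ k ∧
      (k - (sh k + s : ℕ)).toNat < 2 ^ J := by
    intro k hk s hs
    have h1 := mem_Ico.1 (hS hk)
    rw [hMz] at h1
    have h3 : (s : ℤ) < M := by exact_mod_cast hs
    simp only [hsh]
    rw [h2J]
    refine ⟨?_, ?_, ?_⟩ <;> omega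
  refine card_le_card_of_injOn (fun ks => (sh ks.1 + ks.2, (ks.1 - (sh ks.1 + ks.2 : ℕ)).toNat))
    (fun ks hks => ?_) (fun ks hks kt hkt hst => ?_)
  · obtain ⟨h1, h2⟩ := mem_product.1 hks
    obtain ⟨h3, h4, h5⟩ := hkey ks.1 h1 ks.2 (mem_range.1 h2)
    refine hB _ (mem_range.2 h3) _ (mem_range.2 h5) ?_
    have : ((sh ks.1 + ks.2 : ℕ) : ℤ) + ((ks.1 - (sh ks.1 + ks.2 : ℕ)).toNat : ℤ) = ks.1 := by
      rw [Int.toNat_of_nonneg (by omega)]; ring
    rw [this]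
    exact h1
  · obtain ⟨h1, h2⟩ := mem_product.1 hks
    obtain ⟨h1', h2'⟩ := mem_product.1 hkt
    obtain ⟨h3, h4, h5⟩ := hkey ks.1 h1 ks.2 (mem_range.1 h2)
    obtain ⟨h3', h4', h5'⟩ := hkey kt.1 h1' kt.2 (mem_range.1 h2')
    have e2 := congrArg Prod.fst hst
    have e3 := congrArg Prod.snd hst
    simp only [] at e2 e3
    have e4 : ((sh ks.1 + ks.2 : ℕ) : ℤ) + ((ks.1 - (sh ks.1 + ks.2 : ℕ)).toNat : ℤ) = ks.1 := by
      rw [Int.toNat_of_nonneg (by omega)]; ring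
    have e5 : ((sh kt.1 + kt.2 : ℕ) : ℤ) + ((kt.1 - (sh kt.1 + kt.2 : ℕ)).toNat : ℤ) = kt.1 := by
      rw [Int.toNat_of_nonneg (by omega)]; ring
    have e6 : ks.1 = kt.1 := by
      have e7 : ((sh ks.1 + ks.2 : ℕ) : ℤ) = ((sh kt.1 + kt.2 : ℕ) : ℤ) := by exact_mod_cast e2
      have e8 : ((ks.1 - (sh ks.1 + ks.2 : ℕ)).toNat : ℤ) =
          ((kt.1 - (sh kt.1 + kt.2 : ℕ)).toNat : ℤ) := congrArg Nat.cast e3
      linarith
    refine Prod.ext e6 ?_
    rw [e6] at e2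
    omega

theorem pf_FJ (hF : T_FIN) : T_FJ := by
  classical
  intro ε lam hε hlam
  obtain ⟨K, L, hKL⟩ := hF (ε / 2) lam (by linarith) hlam
  refine ⟨L + 2 * K + 1, fun J F G hJ hbF hbG => ?_⟩
  have h1 := hKL J F G hbF hbG
  have h2 := many_pairs J hJ ((Ico ((2 : ℤ) ^ (J - 1)) (3 * 2 ^ (J - 1))).filter (fun k =>
    Jmp (L + 2 * K + 1) lam (2 ^ J) (fun N => AN F G N k))) (filter_subset _ _)
    ((range (2 ^ J) ×ˢ range (2 ^ J)).filter (fun ab : ℕ × ℕ =>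
    ¬ ∃ E : Finset ℕ, E.card ≤ K ∧ ∀ N N' : ℕ, 2 ^ L ≤ N → N ≤ N' → N' ≤ 2 ^ J →
      (∀ j, Nat.log 2 N ≤ j + L → j + L ≤ Nat.log 2 N' → j ∉ E) →
      ‖AN F G N ((ab.1 : ℤ) + ab.2) - AN F G N' ((ab.1 : ℤ) + ab.2)‖ ≤ lam)) (by
      intro a ha b hb hab
      refine mem_filter.2 ⟨mem_product.2 ⟨ha, hb⟩, ?_⟩
      exact bad_of_jmp (mem_filter.1 hab).2)
  have h3 : (((Ico ((2 : ℤ) ^ (J - 1)) (3 * 2 ^ (J - 1))).filter (fun k =>
    Jmp (L + 2 * K + 1) lam (2 ^ J) (fun N => AN F G N k))).card : ℝ) * 2 ^ (J - 1) ≤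
      ε / 2 * 4 ^ J := by
    refine le_trans ?_ h1
    have h4 := (Nat.cast_le (α := ℝ)).2 h2
    push_cast at h4
    convert h4 using 3
  have h5 : (4 : ℝ) ^ J = 2 ^ J * (2 * 2 ^ (J - 1)) := by
    obtain ⟨m, rfl⟩ : ∃ m, J = m + 1 := ⟨J - 1, by omega⟩
    rw [Nat.add_sub_cancel]
    have : (4 : ℝ) = 2 * 2 := by norm_num
    rw [this, mul_pow, pow_succ]
    ring
  rw [h5] at h3
  have h6 : (0 : ℝ) < 2 ^ (J - 1) := by positivity
  have h7 : ε / 2 * (2 ^ J * (2 * 2 ^ (J - 1))) = (ε * 2 ^ J) * 2 ^ (J - 1) := by ring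
  rw [h7] at h3
  have h8 := le_of_mul_le_mul_right h3 h6
  convert h8 using 2

end Pool.Agent.H91.BOU
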