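import Pool.Agent.H31.BOU.Targets2
import Pool.Agent.H31.BOU.Targets1

/-!
# Row NFN of `bou_modules`
-/

set_option autoImplicit false

namespace Pool.Agent.H91.BOU

open Finset Pool.Agent.H31.BOU

theorem pf_NFN (hN : T_CNT) (hB : T_DFB) : T_NFN := by
  intro e
  refine ⟨2, by norm_num, fun j l x γ Θ Z q R hq hR he hl hZ hΘ hγ => ?_⟩
  have hp : 0 < e * 2 ^ j := Nat.mul_pos (by omega) (pow_pos (by norm_num) _)
  have hpR : (0 : ℝ) < ((e * 2 ^ j : ℕ) : ℝ) := by exact_mod_cast hp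
  have hpe : ((e * 2 ^ j : ℕ) : ℝ) = (e : ℝ) * 2 ^ j := by push_cast; rfl
  have he1 : (1 : ℝ) ≤ e := by exact_mod_cast he
  have h2j : (0 : ℝ) < 2 ^ j := by positivity
  have hq0 : (0 : ℝ) < q := by linarith
  have hq40 : (1 : ℝ) ≤ q ^ 40 := one_le_pow₀ hq
  have key : ∀ Y : Finset ℕ, (∀ b ∈ Y, b ∈ range (e * 2 ^ j) ∧
      ∃ ζ ∈ Z, nd ((b : ℝ) / (e * 2 ^ j : ℕ) - ζ) ≤ q ^ 40 / 2 ^ j) →
      (∑ b ∈ Y, ‖ft (Ico x (x + l)) γ ((b : ℝ) / (e * 2 ^ j : ℕ))‖ *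
        ‖ft (Ico x (x + l)) Θ ((b : ℝ) / (e * 2 ^ j : ℕ))‖) / (e * 2 ^ j : ℕ) ≤ 2 * R / q := by
    intro Y hY
    classical
    -- the number of points
    have hcard : (Y.card : ℝ) ≤ 3 * e * q ^ 57 := by
      have hsub : Y ⊆ Z.biUnion fun ζ => (range (e * 2 ^ j)).filter
          (fun b : ℕ => nd ((b : ℝ) / (e * 2 ^ j : ℕ) - ζ) ≤ q ^ 40 / 2 ^ j) := by
        intro b hb
        obtain ⟨h1, ζ, hζ, h2⟩ := hY b hb
        exact mem_biUnion.2 ⟨ζ, hζ, mem_filter.2 ⟨h1, h2⟩⟩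
      have h1 : (Y.card : ℝ) ≤ ∑ ζ ∈ Z, (((range (e * 2 ^ j)).filter
          (fun b : ℕ => nd ((b : ℝ) / (e * 2 ^ j : ℕ) - ζ) ≤ q ^ 40 / 2 ^ j)).card : ℝ) := by
        have := (card_le_card hsub).trans card_biUnion_le
        exact_mod_cast this
      have h2 : ∀ ζ ∈ Z, (((range (e * 2 ^ j)).filter
          (fun b : ℕ => nd ((b : ℝ) / (e * 2 ^ j : ℕ) - ζ) ≤ q ^ 40 / 2 ^ j)).card : ℝ) ≤
          3 * e * q ^ 40 := by
        intro ζ _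
        have h3 := hN (e * 2 ^ j) ζ (q ^ 40 / 2 ^ j) hp (by positivity)
        have h3' : (((range (e * 2 ^ j)).filter
          (fun b : ℕ => nd ((b : ℝ) / (e * 2 ^ j : ℕ) - ζ) ≤ q ^ 40 / 2 ^ j)).card : ℝ) ≤
          2 * (q ^ 40 / 2 ^ j) * ((e * 2 ^ j : ℕ) : ℝ) + 1 := by
          convert h3 using 2
        refine h3'.trans ?_
        rw [hpe]
        have h4 : 2 * (q ^ 40 / 2 ^ j) * ((e : ℝ) * 2 ^ j) = 2 * (e * q ^ 40) := by
          field_simp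
        rw [h4]
        nlinarith [mul_le_mul he1 hq40 (by norm_num) (by linarith)]
      refine h1.trans ((sum_le_card_nsmul Z _ _ h2).trans ?_)
      rw [nsmul_eq_mul]
      calc (Z.card : ℝ) * (3 * e * q ^ 40) ≤ q ^ 17 * (3 * e * q ^ 40) :=
            mul_le_mul_of_nonneg_right hZ (by positivity)
        _ = 3 * e * q ^ 57 := by ring
    -- Parseval
    have hpar : ∑ b ∈ Y, ‖ft (Ico x (x + l)) γ ((b : ℝ) / (e * 2 ^ j : ℕ))‖ ^ 2 ≤ e := by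
      have h1 := hB (e * 2 ^ j) l x γ hp hl
      have h2 : ∑ b ∈ Y, ‖ft (Ico x (x + l)) γ ((b : ℝ) / (e * 2 ^ j : ℕ))‖ ^ 2 ≤
          ∑ b ∈ range (e * 2 ^ j), ‖ft (Ico x (x + l)) γ ((b : ℝ) / (e * 2 ^ j : ℕ))‖ ^ 2 :=
        sum_le_sum_of_subset_of_nonneg (fun b hb => (hY b hb).1) fun _ _ _ => by positivity
      rw [h1] at h2
      refine h2.trans ?_
      calc ((e * 2 ^ j : ℕ) : ℝ) * ∑ v ∈ Ico x (x + l), ‖γ v‖ ^ 2
          ≤ ((e * 2 ^ j : ℕ) : ℝ) * (1 / 2 ^ j) := mul_le_mul_of_nonneg_left hγ hpR.le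
        _ = e := by rw [hpe]; field_simp
    have hcs : (∑ b ∈ Y, ‖ft (Ico x (x + l)) γ ((b : ℝ) / (e * 2 ^ j : ℕ))‖) ^ 2 ≤
        (2 * e * q ^ 29) ^ 2 := by
      have h1 := sq_sum_le_card_mul_sum_sq (s := Y)
        (f := fun b => ‖ft (Ico x (x + l)) γ ((b : ℝ) / (e * 2 ^ j : ℕ))‖)
      refine h1.trans ?_
      calc (Y.card : ℝ) * ∑ b ∈ Y, ‖ft (Ico x (x + l)) γ ((b : ℝ) / (e * 2 ^ j : ℕ))‖ ^ 2
          ≤ (3 * e * q ^ 57) * e := mul_le_mul hcard hpar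
            (sum_nonneg fun _ _ => by positivity) (by positivity)
        _ ≤ (2 * e * q ^ 29) ^ 2 := by
            have h2 : q ^ 57 ≤ q ^ 58 := pow_le_pow_right₀ hq (by norm_num)
            have h3 : (2 * (e : ℝ) * q ^ 29) ^ 2 = 4 * (e * e) * q ^ 58 := by ring
            rw [h3]
            have h4 : 0 ≤ q ^ 58 := by positivity
            have h5 : 0 ≤ (e : ℝ) * e := by positivity
            nlinarith [mul_le_mul_of_nonneg_left h2 h5, mul_nonneg h5 h4]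
    have hsum := abs_le_of_sq_le_sq hcs (by positivity)
    have hsum' := (abs_le.1 hsum).2
    have hprod : ∑ b ∈ Y, ‖ft (Ico x (x + l)) γ ((b : ℝ) / (e * 2 ^ j : ℕ))‖ *
        ‖ft (Ico x (x + l)) Θ ((b : ℝ) / (e * 2 ^ j : ℕ))‖ ≤
        (2 * e * q ^ 29) * (R * 2 ^ j / q ^ 31) := by
      calc ∑ b ∈ Y, ‖ft (Ico x (x + l)) γ ((b : ℝ) / (e * 2 ^ j : ℕ))‖ *
            ‖ft (Ico x (x + l)) Θ ((b : ℝ) / (e * 2 ^ j : ℕ))‖
          ≤ ∑ b ∈ Y, ‖ft (Ico x (x + l)) γ ((b : ℝ) / (e * 2 ^ j : ℕ))‖ *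
            (R * 2 ^ j / q ^ 31) :=
            sum_le_sum fun b _ => mul_le_mul_of_nonneg_left (hΘ _) (norm_nonneg _)
        _ = (∑ b ∈ Y, ‖ft (Ico x (x + l)) γ ((b : ℝ) / (e * 2 ^ j : ℕ))‖) *
            (R * 2 ^ j / q ^ 31) := by rw [sum_mul]
        _ ≤ _ := mul_le_mul_of_nonneg_right hsum' (by positivity)
    rw [div_le_iff₀ hpR]
    refine hprod.trans ?_
    rw [hpe]
    have h6 : (2 * (e : ℝ) * q ^ 29) * (R * 2 ^ j / q ^ 31) = 2 * R / q ^ 2 * (e * 2 ^ j) := by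
      field_simp
    rw [h6]
    refine mul_le_mul_of_nonneg_right ?_ (by positivity)
    exact div_le_div_of_nonneg_left (by positivity) hq0 (by nlinarith)
  exact key _ fun b hb => mem_filter.1 hb

end Pool.Agent.H91.BOU
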