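import Pool.Agent.H31.BOU.Targets1
import Pool.Agent.H31.BOU.Targets2
import Pool.Agent.H31.BOU.Targets3

/-!
# Row ONE of `bou_modules`
-/

set_option autoImplicit false

namespace Pool.Agent.H91.BOU

open Finset Pool.Agent.H31.BOU

/-- The difference of two families. -/
noncomputable def dif {ι ι' : Type} (P : Fam ι) (P' : Fam ι') : Fam (ι' ⊕ ι) where
  sc := Sum.elim P'.sc P.sc
  mm := Sum.elim P'.mm P.mm
  be := Sum.elim P'.be P.be
  co := Sum.elim P'.co (fun i => -P.co i)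

theorem dif_str {ι ι' : Type} [Fintype ι] [Fintype ι'] (P : Fam ι) (P' : Fam ι') (j : ℕ)
    (v : ℤ) : (dif P P').str j v = P'.str j v - P.str j v := by
  unfold Fam.str dif
  rw [Fintype.sum_sum_type, sub_eq_add_neg, ← sum_neg_distrib]
  congr 1
  refine sum_congr rfl fun i _ => ?_
  simp only [Sum.elim_inr]
  split_ifs with h
  · ring
  · simp

theorem cf_sub (H K : ℤ → ℂ) (j : ℕ) (m : ℤ) (a : ℕ) :
    cf (fun v => H v - K v) j m a = cf H j m a - cf K j m a := by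
  unfold cf
  rw [← sub_div, ← sum_sub_distrib]
  congr 1
  refine sum_congr rfl fun v _ => ?_
  ring

/-- Counting by energy. -/
theorem count_le {ι : Type} [Fintype ι] (P : Fam ι) {τ M : ℝ} {k : ℕ} {q : ℝ} (hq : 0 < q)
    (hτ : 1 / q ^ k ≤ τ) (h1 : ∀ i, τ ≤ ‖P.co i‖)
    (h2 : ∑ i, 2 ^ P.sc i * ‖P.co i‖ ^ 2 ≤ M) : ∑ i, (2 : ℝ) ^ P.sc i ≤ q ^ (2 * k) * M := by
  have hqk : 0 < q ^ k := pow_pos hq k
  have h3 : ∀ i, (2 : ℝ) ^ P.sc i ≤ q ^ (2 * k) * (2 ^ P.sc i * ‖P.co i‖ ^ 2) := by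
    intro i
    have h4 : 1 ≤ q ^ k * ‖P.co i‖ := by
      have := hτ.trans (h1 i)
      rwa [div_le_iff₀' hqk] at this
    have h5 : 1 ≤ (q ^ k * ‖P.co i‖) ^ 2 := one_le_pow₀ h4
    have h6 : q ^ (2 * k) * (2 ^ P.sc i * ‖P.co i‖ ^ 2) =
        (2 : ℝ) ^ P.sc i * (q ^ k * ‖P.co i‖) ^ 2 := by
      rw [mul_pow, ← pow_mul, mul_comm k 2]; ring
    rw [h6]
    exact le_mul_of_one_le_right (by positivity) h5
  calc ∑ i, (2 : ℝ) ^ P.sc i ≤ ∑ i, q ^ (2 * k) * (2 ^ P.sc i * ‖P.co i‖ ^ 2) :=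
        sum_le_sum fun i _ => h3 i
    _ = q ^ (2 * k) * ∑ i, 2 ^ P.sc i * ‖P.co i‖ ^ 2 := by rw [mul_sum]
    _ ≤ q ^ (2 * k) * M := mul_le_mul_of_nonneg_left h2 (by positivity)

theorem pf_ONE (hS : T_STG) (hP : T_PUR) : T_ONE := by
  intro T
  obtain ⟨C, hC, hst⟩ := hS T
  refine ⟨C, hC, fun n ι ι' _ _ J F G P P' hn hF hG hPP hPP' => ?_⟩
  have hq1 : (1 : ℝ) ≤ 2 ^ n := one_le_pow₀ (by norm_num)
  have hq0 : (0 : ℝ) < 2 ^ n := by positivity
  have hK : (K0 : ℝ) = 2 ^ 40 := rfl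
  obtain ⟨N, Q, hQ1, hQ2, hQ3⟩ := hP J (1 / 2 ^ (8 * n)) G (by positivity) hG.1 hG.2
  have hpow : ∀ k : ℕ, ((2 : ℝ) ^ n) ^ k = 2 ^ (k * n) := fun k => by
    rw [← pow_mul, mul_comm]
  have hq8 : (1 : ℝ) / 2 ^ (8 * n) = 1 / (2 ^ n) ^ 8 := by rw [hpow]
  have h32 : (1 : ℝ) / 2 ^ (32 * n) = 1 / (2 ^ n) ^ 32 := by rw [hpow]
  have h32' : (1 : ℝ) / 2 ^ (32 * (n - 1)) = 2 ^ 32 / (2 ^ n) ^ 32 := by
    obtain ⟨m, rfl⟩ : ∃ m, n = m + 1 := ⟨n - 1, by omega⟩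
    rw [hpow, Nat.add_sub_cancel, mul_add, mul_one, pow_add]
    field_simp
  have h2J : (2 : ℝ) ^ (J + 1) = 2 * 2 ^ J := by ring
  have hJ0 : (0 : ℝ) < 2 ^ J := by positivity
  have hyp : Hyp J (2 ^ n) G Q (dif P P') := by
    refine ⟨hq1, hG.1, fun u => ⟨(hQ1 u).1, (hQ1 u).2.1, (hQ1 u).2.2.1⟩, ?_, ?_, ?_, ?_, ?_, ?_, ?_⟩
    · have h1 := count_le Q (k := 8) hq0 hq8.ge (fun i => (hQ1 i).2.2.2) hQ2
      refine h1.trans ?_
      rw [h2J, hK]
      have h3 : (0 : ℝ) < (2 ^ n) ^ (2 * 8) := by positivity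
      have h4 : (0 : ℝ) < (2 ^ n) ^ (2 * 8) * 2 ^ J := by positivity
      have e1 : (2 : ℝ) ^ 40 * (2 ^ n) ^ 16 * 2 ^ J = 2 ^ 40 * ((2 ^ n) ^ (2 * 8) * 2 ^ J) := by
        norm_num; ring
      rw [e1]
      nlinarith
    · refine hQ2.trans ?_
      rw [h2J, hK]; nlinarith
    · intro j hj m a ha
      refine (hQ3 j hj m a ha).trans ?_
      rw [hq8, hK]
      exact div_le_div_of_nonneg_right (by norm_num) (by positivity)
    · rintro (i | i)
      · exact ⟨(hPP'.s i).1, (hPP'.s i).2.1, (hPP'.s i).2.2.1⟩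
      · exact ⟨(hPP.s i).1, (hPP.s i).2.1, (hPP.s i).2.2.1⟩
    · rw [Fintype.sum_sum_type]
      have h1 := count_le P' (k := 32) hq0 h32.ge (fun i => (hPP'.s i).2.2.2) hPP'.e
      have h2 := count_le P (k := 32) hq0 (τ := 1 / 2 ^ (32 * (n - 1))) (by
        rw [h32']
        exact div_le_div_of_nonneg_right (by norm_num) (by positivity))
        (fun i => (hPP.s i).2.2.2) hPP.e
      have h5 := add_le_add h1 h2
      refine h5.trans ?_
      rw [h2J, hK]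
      have h4 : (0 : ℝ) < (2 ^ n) ^ (2 * 32) * 2 ^ J := by positivity
      have e1 : (2 : ℝ) ^ 40 * (2 ^ n) ^ 64 * 2 ^ J = 2 ^ 40 * ((2 ^ n) ^ (2 * 32) * 2 ^ J) := by
        norm_num; ring
      rw [e1]
      nlinarith
    · rw [Fintype.sum_sum_type]
      have h1 := hPP'.e
      have h2 := hPP.e
      have e1 : ∑ a₂, (2 : ℝ) ^ (dif P P').sc (Sum.inr a₂) * ‖(dif P P').co (Sum.inr a₂)‖ ^ 2 =
          ∑ i, 2 ^ P.sc i * ‖P.co i‖ ^ 2 := by
        refine sum_congr rfl fun i _ => ?_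
        simp only [dif, Sum.elim_inr, norm_neg]
      have e2 : ∑ a₁, (2 : ℝ) ^ (dif P P').sc (Sum.inl a₁) * ‖(dif P P').co (Sum.inl a₁)‖ ^ 2 =
          ∑ i, 2 ^ P'.sc i * ‖P'.co i‖ ^ 2 := by
        refine sum_congr rfl fun i _ => ?_
        simp only [dif, Sum.elim_inl]
      rw [e1, e2, hK]
      rw [h2J] at h1 h2
      nlinarith
    · intro j hj m a ha
      have e : (fun v => (dif P P').str j v) = fun v => (F v - P.str j v) - (F v - P'.str j v) := by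
        funext v
        rw [dif_str]; ring
      rw [e, cf_sub]
      refine (norm_sub_le _ _).trans ?_
      have h1 := hPP.c j hj m a ha
      have h2 := hPP'.c j hj m a ha
      rw [h32'] at h1
      rw [h32] at h2
      refine (add_le_add h1 h2).trans ?_
      rw [← add_div, hK]
      exact div_le_div_of_nonneg_right (by norm_num) (by positivity)
  have hfin := hst (ι' ⊕ ι) (Fin N) J (2 ^ n) G Q (dif P P') hyp
  have e : ∀ j, (dif P P').str j = fun v => P'.str j v - P.str j v := fun j => by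
    funext v; exact dif_str P P' j v
  simp only [e] at hfin
  exact hfin

end Pool.Agent.H91.BOU
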