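import Pool.Agent.H31.BOU.Targets1
import Pool.Agent.H31.BOU.Targets2
import Pool.Agent.H31.BOU.Targets3

/-!
# Row STA of `bou_modules`
-/

set_option autoImplicit false

namespace Pool.Agent.H91.BOU

open Finset Pool.Agent.H31.BOU

open Classical in
theorem markov {α : Type} (S : Finset α) (f : α → ℝ) {M t B : ℝ} (hf : ∀ x ∈ S, 0 ≤ f x)
    (ht : 0 < t) (hM : ∑ x ∈ S, f x ≤ M) (hB : M ≤ B * t) :
    ((S.filter (fun x => ¬ f x ≤ t)).card : ℝ) ≤ B := by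
  have h1 : ((S.filter (fun x => ¬ f x ≤ t)).card : ℝ) * t ≤ M := by
    calc ((S.filter (fun x => ¬ f x ≤ t)).card : ℝ) * t
        = (S.filter (fun x => ¬ f x ≤ t)).card • t := by rw [nsmul_eq_mul]
      _ ≤ ∑ x ∈ S.filter (fun x => ¬ f x ≤ t), f x :=
          card_nsmul_le_sum _ _ _ fun x hx => (not_le.1 (mem_filter.1 hx).2).le
      _ ≤ ∑ x ∈ S, f x := sum_le_sum_of_subset_of_nonneg (filter_subset _ _) fun x hx _ => hf x hx
      _ ≤ M := hM
  exact le_of_mul_le_mul_right (h1.trans hB) ht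

open Classical in
/-- The number of pairs near a block. -/
theorem near_pairs (J c i : ℕ) (m : ℤ) :
    ∑ ab ∈ range (2 ^ J) ×ˢ range (2 ^ J),
      (if near c i m 0 ((ab.1 : ℤ) + ab.2) then (1 : ℝ) else 0) ≤ 2 ^ J * ((2 * c + 1) * 2 ^ i) := by
  rw [sum_product]
  have h1 : ∀ a ∈ range (2 ^ J), ∑ b ∈ range (2 ^ J),
      (if near c i m 0 ((a : ℤ) + b) then (1 : ℝ) else 0) ≤ (2 * c + 1) * 2 ^ i := by
    intro a _
    rw [← sum_filter, sum_const, nsmul_eq_mul, mul_one]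
    have h2 : ((range (2 ^ J)).filter (fun b : ℕ => near c i m 0 ((a : ℤ) + b))).card ≤
        (Ico ((m - c) * 2 ^ i) ((m + 1 + c) * 2 ^ i)).card := by
      refine card_le_card_of_injOn (fun b : ℕ => (a : ℤ) + b) (fun b hb => ?_)
        (fun b _ b' _ h => by simpa using h)
      obtain ⟨-, -, h3, h4⟩ := mem_filter.1 hb
      refine mem_Ico.2 ⟨?_, ?_⟩
      · simpa using h3
      · have : ((a : ℤ) + b + 2) * 2 ^ 0 ≤ (m + 1 + c) * 2 ^ i := h4
        simp at this ⊢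
        linarith
    have h5 : ((Ico ((m - c) * 2 ^ i) ((m + 1 + c) * 2 ^ i)).card : ℤ) = (2 * c + 1) * 2 ^ i := by
      rw [Int.card_Ico, Int.toNat_of_nonneg]
      · ring
      · have : (m + 1 + c) * 2 ^ i - (m - c) * 2 ^ i = (2 * c + 1) * 2 ^ i := by ring
        rw [this]; positivity
    have h6 : ((Ico ((m - c) * 2 ^ i) ((m + 1 + c) * 2 ^ i)).card : ℝ) = (2 * c + 1) * 2 ^ i := by
      exact_mod_cast h5
    rw [← h6]
    exact_mod_cast h2
  refine (sum_le_card_nsmul _ _ _ h1).trans ?_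
  rw [card_range, nsmul_eq_mul]
  push_cast
  exact le_rfl

theorem pf_STA (hB : T_BDN) (hN : T_SQN) : T_STA := by
  classical
  intro c r ε τ hε hτ ι _ J F P hP
  have h4J : (2 : ℝ) ^ J * 2 ^ (J + 1) = 2 * 4 ^ J := by
    have : (4 : ℝ) = 2 * 2 := by norm_num
    rw [this, mul_pow, pow_succ]; ring
  -- sums over the pieces
  have s1 : ∑ i, (2 : ℝ) ^ P.sc i ≤ 2 ^ (J + 1) / τ ^ 2 := by
    rw [le_div_iff₀ (by positivity), sum_mul]
    refine (sum_le_sum fun i _ => ?_).trans hP.e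
    exact mul_le_mul_of_nonneg_left (pow_le_pow_left₀ hτ.le (hP.s i).2.2.2 2) (by positivity)
  have s2 : ∑ i, (2 : ℝ) ^ P.sc i * ‖P.co i‖ ≤ 2 ^ (J + 1) / τ := by
    rw [le_div_iff₀ hτ, sum_mul]
    refine (sum_le_sum fun i _ => ?_).trans hP.e
    rw [mul_assoc, sq]
    exact mul_le_mul_of_nonneg_left
      (mul_le_mul_of_nonneg_left (hP.s i).2.2.2 (norm_nonneg _)) (by positivity)
  set S : Finset (ℕ × ℕ) := range (2 ^ J) ×ˢ range (2 ^ J) with hS
  set fA : ℕ × ℕ → ℝ := fun ab =>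
    ((univ.filter (fun i => near c (P.sc i) (P.mm i) 0 ((ab.1 : ℤ) + ab.2))).card : ℝ) with hfA
  set fB : ℕ × ℕ → ℝ := fun ab =>
    ∑ i ∈ univ.filter (fun i => near c (P.sc i) (P.mm i) 0 ((ab.1 : ℤ) + ab.2)), ‖P.co i‖ with hfB
  set fC : ℕ × ℕ → ℝ := fun ab =>
    (((range (J + 1)).filter (fun j => ∃ i, meets r (P.sc i) (P.mm i) j (kn ab.1 ab.2 j) ∧
        ¬ long r (P.sc i) (P.mm i) j (kn ab.1 ab.2 j))).card : ℝ) with hfC
  have hA : ∑ ab ∈ S, fA ab ≤ 2 * (2 * c + 1) * 4 ^ J / τ ^ 2 := by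
    have e1 : ∀ ab ∈ S, fA ab = ∑ i, (if near c (P.sc i) (P.mm i) 0 ((ab.1 : ℤ) + ab.2)
        then (1 : ℝ) else 0) := by
      intro ab _
      rw [← sum_filter, sum_const, nsmul_eq_mul, mul_one]
    rw [sum_congr rfl e1, sum_comm]
    calc ∑ i, ∑ ab ∈ S, (if near c (P.sc i) (P.mm i) 0 ((ab.1 : ℤ) + ab.2) then (1 : ℝ) else 0)
        ≤ ∑ i, (2 : ℝ) ^ J * ((2 * (c : ℝ) + 1) * 2 ^ P.sc i) :=
          sum_le_sum fun i _ => near_pairs J c (P.sc i) (P.mm i)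
      _ = 2 ^ J * (2 * c + 1) * ∑ i, 2 ^ P.sc i := by
          rw [mul_sum]; exact sum_congr rfl fun i _ => by ring
      _ ≤ 2 ^ J * (2 * c + 1) * (2 ^ (J + 1) / τ ^ 2) :=
          mul_le_mul_of_nonneg_left s1 (by positivity)
      _ = (2 ^ J * 2 ^ (J + 1)) * (2 * c + 1) / τ ^ 2 := by ring
      _ = 2 * (2 * c + 1) * 4 ^ J / τ ^ 2 := by rw [h4J]; ring
  have hBs : ∑ ab ∈ S, fB ab ≤ 2 * (2 * c + 1) * 4 ^ J / τ := by
    have e1 : ∀ ab ∈ S, fB ab = ∑ i, ‖P.co i‖ *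
        (if near c (P.sc i) (P.mm i) 0 ((ab.1 : ℤ) + ab.2) then (1 : ℝ) else 0) := by
      intro ab _
      rw [hfB]
      simp only []
      rw [sum_filter]
      refine sum_congr rfl fun i _ => ?_
      split_ifs <;> simp
    rw [sum_congr rfl e1, sum_comm]
    calc ∑ i, ∑ ab ∈ S, ‖P.co i‖ *
          (if near c (P.sc i) (P.mm i) 0 ((ab.1 : ℤ) + ab.2) then (1 : ℝ) else 0)
        ≤ ∑ i, ‖P.co i‖ * (2 ^ J * ((2 * c + 1) * 2 ^ P.sc i)) :=
          sum_le_sum fun i _ => by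
            rw [← mul_sum]
            exact mul_le_mul_of_nonneg_left (near_pairs J c (P.sc i) (P.mm i)) (norm_nonneg _)
      _ = 2 ^ J * (2 * c + 1) * ∑ i, 2 ^ P.sc i * ‖P.co i‖ := by
          rw [mul_sum]; exact sum_congr rfl fun i _ => by ring
      _ ≤ 2 ^ J * (2 * c + 1) * (2 ^ (J + 1) / τ) :=
          mul_le_mul_of_nonneg_left s2 (by positivity)
      _ = (2 ^ J * 2 ^ (J + 1)) * (2 * c + 1) / τ := by ring
      _ = 2 * (2 * c + 1) * 4 ^ J / τ := by rw [h4J]; ring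
  have hC : ∑ ab ∈ S, fC ab ≤ 2 * (8 * r + 8) * 4 ^ J / τ ^ 2 := by
    have e1 : ∀ ab ∈ S, fC ab ≤ ∑ i, ∑ j ∈ range (J + 1),
        (if meets r (P.sc i) (P.mm i) j (kn ab.1 ab.2 j) ∧
        ¬ long r (P.sc i) (P.mm i) j (kn ab.1 ab.2 j) then (1 : ℝ) else 0) := by
      intro ab _
      have : fC ab = ∑ j ∈ range (J + 1), (if ∃ i, meets r (P.sc i) (P.mm i) j (kn ab.1 ab.2 j) ∧
        ¬ long r (P.sc i) (P.mm i) j (kn ab.1 ab.2 j) then (1 : ℝ) else 0) := by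
        rw [← sum_filter, sum_const, nsmul_eq_mul, mul_one]
      rw [this, sum_comm]
      refine sum_le_sum fun j _ => ?_
      split_ifs with h
      · obtain ⟨i, hi⟩ := h
        have h2 := single_le_sum (f := fun i => (if meets r (P.sc i) (P.mm i) j
          (kn ab.1 ab.2 j) ∧ ¬ long r (P.sc i) (P.mm i) j (kn ab.1 ab.2 j) then (1 : ℝ) else 0))
          (fun i _ => by split_ifs <;> norm_num) (mem_univ i)
        simpa [hi] using h2
      · exact sum_nonneg fun i _ => by split_ifs <;> norm_num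
    refine (sum_le_sum e1).trans ?_
    rw [sum_comm]
    have h3 : ∀ i, ∑ ab ∈ S, ∑ j ∈ range (J + 1),
        (if meets r (P.sc i) (P.mm i) j (kn ab.1 ab.2 j) ∧
        ¬ long r (P.sc i) (P.mm i) j (kn ab.1 ab.2 j) then (1 : ℝ) else 0) ≤
        (8 * r + 8) * 2 ^ P.sc i * 2 ^ J := by
      intro i
      have h4 := hB r J (P.sc i) (P.mm i) (hP.s i).1
      rw [sum_comm]
      have h5 : ∑ j ∈ range (J + 1), ∑ ab ∈ S,
          (if meets r (P.sc i) (P.mm i) j (kn ab.1 ab.2 j) ∧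
            ¬ long r (P.sc i) (P.mm i) j (kn ab.1 ab.2 j) then (1 : ℝ) else 0) =
          ∑ j ∈ range (J + 1), 4 ^ j * ∑ p ∈ range (2 ^ (J - j)), ∑ s ∈ range (2 ^ (J - j)),
          (if meets r (P.sc i) (P.mm i) j ((p : ℤ) + s) ∧
            ¬ long r (P.sc i) (P.mm i) j ((p : ℤ) + s) then (1 : ℝ) else 0) := by
        refine sum_congr rfl fun j hj => ?_
        rw [hS, sum_product]
        exact hN J j (fun p s => if meets r (P.sc i) (P.mm i) j ((p : ℤ) + s) ∧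
            ¬ long r (P.sc i) (P.mm i) j ((p : ℤ) + s) then (1 : ℝ) else 0)
          (by have := mem_range.1 hj; omega)
      rw [h5]
      refine le_trans (le_of_eq ?_) h4
      exact sum_congr rfl fun j _ => by congr!
    refine (sum_le_sum fun i _ => h3 i).trans ?_
    calc ∑ i, (8 * (r : ℝ) + 8) * 2 ^ P.sc i * 2 ^ J
        = (8 * r + 8) * 2 ^ J * ∑ i, 2 ^ P.sc i := by
          rw [mul_sum]; exact sum_congr rfl fun i _ => by ring
      _ ≤ (8 * r + 8) * 2 ^ J * (2 ^ (J + 1) / τ ^ 2) :=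
          mul_le_mul_of_nonneg_left s1 (by positivity)
      _ = (2 ^ J * 2 ^ (J + 1)) * (8 * r + 8) / τ ^ 2 := by ring
      _ = 2 * (8 * r + 8) * 4 ^ J / τ ^ 2 := by rw [h4J]; ring
  -- Markov
  have mA := markov S fA (M := 2 * (2 * c + 1) * 4 ^ J / τ ^ 2)
    (t := 6 * (2 * c + 1) / (ε * τ ^ 2)) (B := ε / 3 * 4 ^ J)
    (fun _ _ => Nat.cast_nonneg _) (by positivity) hA (le_of_eq (by field_simp; ring))
  have mB := markov S fB (M := 2 * (2 * c + 1) * 4 ^ J / τ)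
    (t := 6 * (2 * c + 1) / (ε * τ)) (B := ε / 3 * 4 ^ J)
    (fun _ _ => sum_nonneg fun _ _ => norm_nonneg _) (by positivity) hBs
    (le_of_eq (by field_simp; ring))
  have mC := markov S fC (M := 2 * (8 * r + 8) * 4 ^ J / τ ^ 2)
    (t := 6 * (8 * r + 8) / (ε * τ ^ 2)) (B := ε / 3 * 4 ^ J)
    (fun _ _ => Nat.cast_nonneg _) (by positivity) hC (le_of_eq (by field_simp; ring))
  have hsub : S.filter (fun ab => ¬ (fA ab ≤ 6 * (2 * c + 1) / (ε * τ ^ 2) ∧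
      fB ab ≤ 6 * (2 * c + 1) / (ε * τ) ∧ fC ab ≤ 6 * (8 * r + 8) / (ε * τ ^ 2))) ⊆
      S.filter (fun ab => ¬ fA ab ≤ 6 * (2 * c + 1) / (ε * τ ^ 2)) ∪
      (S.filter (fun ab => ¬ fB ab ≤ 6 * (2 * c + 1) / (ε * τ)) ∪
      S.filter (fun ab => ¬ fC ab ≤ 6 * (8 * r + 8) / (ε * τ ^ 2))) := by
    intro ab hab
    obtain ⟨h1, h2⟩ := mem_filter.1 hab
    simp only [mem_union, mem_filter]
    tauto
  have hcard := (card_le_card hsub).trans ((card_union_le _ _).trans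
    (Nat.add_le_add_left (card_union_le _ _) _))
  have hcard' : ((S.filter (fun ab => ¬ (fA ab ≤ 6 * (2 * c + 1) / (ε * τ ^ 2) ∧
      fB ab ≤ 6 * (2 * c + 1) / (ε * τ) ∧ fC ab ≤ 6 * (8 * r + 8) / (ε * τ ^ 2)))).card : ℝ) ≤
      ε * 4 ^ J := by
    have h1 := (Nat.cast_le (α := ℝ)).2 hcard
    push_cast at h1
    refine h1.trans ((add_le_add mA (add_le_add mB mC)).trans (le_of_eq (by ring)))
  convert hcard' using 2

end Pool.Agent.H91.BOU
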